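import Mathlib

/-!
# Twisted conjugacy ratio and degree of twisted commutativity: definitions
-/

open Filter

namespace Q29.TC

variable {G : Type*} [Group G]

/-- The ball of radius `n`: the elements whose word length with respect to `X ∪ X⁻¹` is at
most `n`. -/
def ball (X : Set G) (n : ℕ) : Set G :=
  {g | ∃ l : List G, l.length ≤ n ∧ (∀ x ∈ l, x ∈ X ∨ x⁻¹ ∈ X) ∧ l.prod = g}

/-- The `φ`-conjugacy class of `y`: the elements `z y φ(z)⁻¹`. -/
def twistedClass (φ : G →* G) (y : G) : Set G := {x | ∃ z : G, x = z * y * (φ z)⁻¹}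

/-- The set of the `φ`-conjugacy classes which meet the ball of radius `n`. -/
def classesMeeting (φ : G →* G) (X : Set G) (n : ℕ) : Set (Set G) :=
  {C | (∃ y, C = twistedClass φ y) ∧ (C ∩ ball X n).Nonempty}

/-- The `φ`-twisted conjugacy ratio `tcr_X(φ, G)`. -/
noncomputable def tcr (φ : G →* G) (X : Set G) : ℝ :=
  limsup (fun n : ℕ => ((classesMeeting φ X n).ncard : ℝ) / ((ball X n).ncard : ℝ)) atTop

/-- The degree of `φ`-twisted commutativity `tdc_X(φ, G)`. -/
noncomputable def tdc (φ : G →* G) (X : Set G) : ℝ :=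
  limsup (fun n : ℕ => (({p : G × G | p.1 ∈ ball X n ∧ p.2 ∈ ball X n ∧
    p.1 * p.2 = p.2 * φ p.1}).ncard : ℝ) / ((ball X n).ncard : ℝ) ^ 2) atTop

end Q29.TC
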