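import Pool.Agent.Q29.TC.Defs

/-!
# The free group of rank two: counting, and the endomorphism `a ↦ a²`, `b ↦ b²`
-/

namespace Q29.TC

open FreeGroup

/-- the free group of rank two -/
abbrev F : Type := FreeGroup (Fin 2)

/-- letters -/
abbrev Lt : Type := Fin 2 × Bool

section Count

open Classical in
/-- the reduced words of length `n` -/
noncomputable def Wf : ℕ → Finset (List Lt)
  | 0 => {[]}
  | n + 1 => (Wf n).biUnion fun w => (Finset.univ.filter fun a => IsReduced (a :: w)).image
      fun a => a :: w

open Classical in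
theorem mem_Wf (n : ℕ) (L : List Lt) : L ∈ Wf n ↔ L.length = n ∧ IsReduced L := by
  induction n generalizing L with
  | zero =>
    rw [Wf, Finset.mem_singleton, List.length_eq_zero_iff]
    constructor
    · rintro rfl; exact ⟨rfl, IsReduced.nil⟩
    · exact fun h => h.1
  | succ n ih =>
    rw [Wf, Finset.mem_biUnion]
    constructor
    · rintro ⟨w, hw, hL⟩
      rw [Finset.mem_image] at hL
      obtain ⟨a, ha, rfl⟩ := hL
      rw [Finset.mem_filter] at ha
      rw [ih] at hw
      exact ⟨by simp [hw.1], ha.2⟩
    · rintro ⟨h1, h2⟩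
      match L, h1, h2 with
      | a :: w, h1, h2 =>
        refine ⟨w, (ih w).mpr ⟨by simpa using h1, ?_⟩, ?_⟩
        · exact List.IsChain.tail h2
        · rw [Finset.mem_image]
          exact ⟨a, Finset.mem_filter.mpr ⟨Finset.mem_univ _, h2⟩, rfl⟩

theorem card_Wf_succ (n : ℕ) : (Wf (n + 1)).card = ∑ w ∈ Wf n,
    (Finset.univ.filter fun a : Lt => (∀ c ∈ w.head?, a.1 = c.1 → a.2 = c.2)).card := by
  classical
  rw [Wf, Finset.card_biUnion]
  · apply Finset.sum_congr rfl
    intro w hw
    rw [mem_Wf] at hw
    rw [Finset.card_image_of_injective _ (fun a b h => by simpa using h)]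
    congr 1
    ext a
    simp only [Finset.mem_filter, Finset.mem_univ, true_and]
    match w, hw with
    | [], _ => simp [IsReduced.singleton]
    | c :: w', hw => simp [isReduced_cons_cons, hw.2]
  · intro w _ w' _ hne
    rw [Function.onFun, Finset.disjoint_left]
    intro L h1 h2
    rw [Finset.mem_image] at h1 h2
    obtain ⟨a, _, rfl⟩ := h1
    obtain ⟨a', _, h⟩ := h2
    simp only [List.cons.injEq] at h
    exact hne h.2.symm

theorem card_Wf (n : ℕ) : (Wf (n + 1)).card = 4 * 3 ^ n := by
  induction n with
  | zero =>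
    rw [card_Wf_succ, Wf, Finset.sum_singleton]
    decide
  | succ n ih =>
    rw [card_Wf_succ]
    have h3 : ∀ w ∈ Wf (n + 1), (Finset.univ.filter fun a : Lt =>
        (∀ c ∈ w.head?, a.1 = c.1 → a.2 = c.2)).card = 3 := by
      intro w hw
      rw [mem_Wf] at hw
      match w, hw.1 with
      | c :: w', _ =>
        have : ∀ c : Lt, (Finset.univ.filter fun a : Lt => (a.1 = c.1 → a.2 = c.2)).card = 3 := by
          decide
        simpa using this c
    rw [Finset.sum_congr rfl h3, Finset.sum_const, ih, smul_eq_mul]
    ring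

open Classical in
/-- the ball of radius `n` in the free group -/
noncomputable def Bf (n : ℕ) : Finset F :=
  (Finset.range (n + 1)).biUnion fun i => (Wf i).image fun L => FreeGroup.mk L

theorem mem_Bf (n : ℕ) (x : F) : x ∈ Bf n ↔ norm x ≤ n := by
  rw [Bf, Finset.mem_biUnion]
  constructor
  · rintro ⟨i, hi, hx⟩
    rw [Finset.mem_image] at hx
    obtain ⟨L, hL, rfl⟩ := hx
    rw [mem_Wf] at hL
    rw [Finset.mem_range] at hi
    have : norm (FreeGroup.mk L) ≤ L.length := norm_mk_le
    omega
  · intro h
    refine ⟨norm x, Finset.mem_range.mpr (by omega), ?_⟩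
    rw [Finset.mem_image]
    exact ⟨x.toWord, (mem_Wf _ _).mpr ⟨rfl, isReduced_toWord⟩, mk_toWord⟩

theorem norm_mk_of_isReduced {L : List Lt} (h : IsReduced L) : norm (FreeGroup.mk L) = L.length := by
  rw [FreeGroup.norm, toWord_mk, h.reduce_eq]

theorem mk_inj_of_isReduced {L L' : List Lt} (h : IsReduced L) (h' : IsReduced L')
    (e : FreeGroup.mk L = FreeGroup.mk L') : L = L' := by
  have : (FreeGroup.mk L).toWord = (FreeGroup.mk L').toWord := by rw [e]
  rwa [toWord_mk, toWord_mk, h.reduce_eq, h'.reduce_eq] at this

theorem card_Bf_eq (n : ℕ) : (Bf n).card = ∑ i ∈ Finset.range (n + 1), (Wf i).card := by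
  classical
  rw [Bf, Finset.card_biUnion]
  · apply Finset.sum_congr rfl
    intro i _
    apply Finset.card_image_of_injOn
    intro L hL L' hL' e
    exact mk_inj_of_isReduced ((mem_Wf _ _).mp hL).2 ((mem_Wf _ _).mp hL').2 e
  · intro i _ j _ hij
    rw [Function.onFun, Finset.disjoint_left]
    intro x h1 h2
    rw [Finset.mem_image] at h1 h2
    obtain ⟨L, hL, rfl⟩ := h1
    obtain ⟨L', hL', e⟩ := h2
    rw [mem_Wf] at hL hL'
    have := mk_inj_of_isReduced hL'.2 hL.2 e
    apply hij
    rw [← hL.1, ← hL'.1, this]

theorem card_Bf (n : ℕ) : (Bf n).card + 1 = 2 * 3 ^ n := by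
  induction n with
  | zero =>
    rw [card_Bf_eq, Finset.sum_range_one, Wf]
    simp
  | succ n ih =>
    rw [card_Bf_eq, Finset.sum_range_succ, ← card_Bf_eq, card_Wf, pow_succ]
    omega

end Count

/-- the endomorphism `a ↦ a²`, `b ↦ b²` -/
def phiF : F →* F := FreeGroup.lift fun i => FreeGroup.of i ^ 2

/-- doubling the letters -/
def dbl : List Lt → List Lt
  | [] => []
  | a :: L => a :: a :: dbl L

theorem dbl_append (L M : List Lt) : dbl (L ++ M) = dbl L ++ dbl M := by
  induction L with
  | nil => rfl
  | cons a L ih => simp [dbl, ih]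

theorem dbl_length (L : List Lt) : (dbl L).length = 2 * L.length := by
  induction L with
  | nil => rfl
  | cons a L ih => simp [dbl, ih]; ring

theorem phiF_mk (L : List Lt) : phiF (FreeGroup.mk L) = FreeGroup.mk (dbl L) := by
  induction L with
  | nil => rw [dbl, ← FreeGroup.one_eq_mk, _root_.map_one]
  | cons a L ih =>
    have h1 : (FreeGroup.mk (a :: L) : F) = FreeGroup.mk [a] * FreeGroup.mk L := by
      rw [FreeGroup.mul_mk]; rfl
    have h2 : (FreeGroup.mk (dbl (a :: L)) : F) = FreeGroup.mk [a, a] * FreeGroup.mk (dbl L) := by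
      rw [FreeGroup.mul_mk]; rfl
    rw [h1, h2, _root_.map_mul, ih]
    congr 1
    obtain ⟨i, b⟩ := a
    cases b
    · rw [phiF, FreeGroup.lift_mk]
      simp only [List.map_cons, List.map_nil, List.prod_cons, List.prod_nil, mul_one, cond_false,
        sq, mul_inv_rev]
      rw [FreeGroup.of, FreeGroup.inv_mk, FreeGroup.mul_mk]
      rfl
    · rw [phiF, FreeGroup.lift_mk]
      simp only [List.map_cons, List.map_nil, List.prod_cons, List.prod_nil, mul_one, cond_true,
        sq]
      rw [FreeGroup.of, FreeGroup.mul_mk]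
      rfl

theorem isReduced_dbl {L : List Lt} (h : IsReduced L) : IsReduced (dbl L) := by
  induction L with
  | nil => exact IsReduced.nil
  | cons a L ih =>
    match L, h, ih with
    | [], _, _ => simp [dbl, isReduced_cons_cons, IsReduced.singleton]
    | b :: L', h, ih =>
      rw [isReduced_cons_cons] at h
      have := ih h.2
      simp only [dbl] at this ⊢
      simp only [isReduced_cons_cons, true_and, implies_true] at this ⊢
      exact ⟨h.1, this⟩

/-- Words whose first two letters come from different generators are not cancelled. -/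
theorem norm_phi_mul (z : F) {c d : Lt} {Y : List Lt} (hY : IsReduced (c :: d :: Y))
    (hcd : c.1 ≠ d.1) : 2 * norm z + (Y.length + 2) ≤
      norm (phiF z * FreeGroup.mk (c :: d :: Y)) + 2 := by
  have hz : z = FreeGroup.mk z.toWord := mk_toWord.symm
  have hzr : IsReduced z.toWord := isReduced_toWord
  have hn : norm z = z.toWord.length := rfl
  rw [hn]
  conv_rhs => rw [hz]
  rw [phiF_mk, FreeGroup.mul_mk]
  generalize z.toWord = L at hzr
  rcases List.eq_nil_or_concat L with rfl | ⟨L', ℓ, rfl⟩
  · simp only [dbl, List.nil_append, List.length_nil]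
    rw [norm_mk_of_isReduced hY]
    simp
  · rw [List.concat_eq_append] at hzr ⊢
    have hd : IsReduced (dbl (L' ++ [ℓ])) := isReduced_dbl hzr
    rw [dbl_append] at hd ⊢
    simp only [dbl] at hd ⊢
    by_cases hc : ℓ.1 = c.1 → ℓ.2 = c.2
    · have hr : IsReduced (dbl L' ++ [ℓ, ℓ] ++ c :: d :: Y) := by
        refine List.isChain_append.mpr ⟨hd, hY, ?_⟩
        intro x hx y hy
        simp only [List.getLast?_append, List.getLast?_cons_cons, List.getLast?_singleton,
          Option.some_or, Option.mem_def, Option.some.injEq] at hx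
        simp only [List.head?_cons, Option.mem_def, Option.some.injEq] at hy
        subst hx; subst hy
        exact hc
      rw [norm_mk_of_isReduced hr]
      simp only [List.length_append, dbl_length, List.length_cons, List.length_nil]
      omega
    · push Not at hc
      obtain ⟨h1, h2⟩ := hc
      have hr : IsReduced (dbl L' ++ [ℓ] ++ d :: Y) := by
        refine List.isChain_append.mpr ⟨?_, ?_, ?_⟩
        · have hd' : IsReduced ((dbl L' ++ [ℓ]) ++ [ℓ]) := by simpa using hd
          exact (List.isChain_append.mp hd').1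
        · exact List.IsChain.tail hY
        · intro x hx y hy
          simp only [List.getLast?_append, List.getLast?_singleton,
            Option.some_or, Option.mem_def, Option.some.injEq] at hx
          simp only [List.head?_cons, Option.mem_def, Option.some.injEq] at hy
          subst hx; subst hy
          intro h
          exact absurd (h1.symm.trans h) hcd
      have hcan : (FreeGroup.mk (dbl L' ++ [ℓ, ℓ] ++ c :: d :: Y) : F) =
          FreeGroup.mk (dbl L' ++ [ℓ] ++ d :: Y) := by
        have e1 : dbl L' ++ [ℓ, ℓ] ++ c :: d :: Y =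
            (dbl L' ++ [ℓ]) ++ (ℓ.1, ℓ.2) :: (ℓ.1, !ℓ.2) :: (d :: Y) := by
          have : c = (ℓ.1, !ℓ.2) := by
            apply Prod.ext
            · exact h1.symm
            · simp only
              revert h2
              cases ℓ.2 <;> cases c.2 <;> simp
          rw [this]
          simp
        rw [e1]
        exact Quot.sound FreeGroup.Red.Step.not
      rw [hcan, norm_mk_of_isReduced hr]
      simp only [List.length_append, dbl_length, List.length_cons, List.length_nil]
      omega

/-- the estimate for the twisted conjugates -/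
theorem norm_twist (z : F) {c d : Lt} {Y : List Lt} (hY : IsReduced (c :: d :: Y))
    (hcd : c.1 ≠ d.1) : norm z + (Y.length + 2) ≤
      norm (z * (FreeGroup.mk (c :: d :: Y))⁻¹ * (phiF z)⁻¹) + 2 := by
  have h1 := norm_phi_mul z hY hcd
  have h2 : norm (z * (FreeGroup.mk (c :: d :: Y))⁻¹ * (phiF z)⁻¹) =
      norm (phiF z * FreeGroup.mk (c :: d :: Y) * z⁻¹) := by
    rw [← norm_inv_eq]
    congr 1
    group
  have h3 : norm (phiF z * FreeGroup.mk (c :: d :: Y)) ≤
      norm (phiF z * FreeGroup.mk (c :: d :: Y) * z⁻¹) + norm z := by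
    have := norm_mul_le (phiF z * FreeGroup.mk (c :: d :: Y) * z⁻¹) z
    rwa [inv_mul_cancel_right] at this
  omega

end Q29.TC
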