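import Pool.Agent.Q29.TC.Prod

/-!
# The twisted conjugacy ratio depends on the generating set
-/

namespace Q29.TC

open FreeGroup Filter

/-- lengths in `ℤ/4` for the generating set `{1}` -/
def kX (k : K) : ℕ := if k = 1 then 0 else if k = Multiplicative.ofAdd 2 then 2 else 1

/-- lengths in `ℤ/4` for the generating set `ℤ/4` -/
def kY (k : K) : ℕ := if k = 1 then 0 else 1

/-- the first generating set of `F₂ × ℤ/4` -/
def X : Set GG := gens {Multiplicative.ofAdd 1}

/-- the second generating set of `F₂ × ℤ/4` -/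
def Y : Set GG := gens Set.univ

theorem X_finite : X.Finite := by
  have : X ⊆ (Set.range fun i : Fin 2 => ((FreeGroup.of i, 1) : GG)) ∪
      (Set.range fun s : K => ((1, s) : GG)) := by
    rintro g (⟨i, rfl⟩ | ⟨s, _, rfl⟩)
    · exact Or.inl ⟨i, rfl⟩
    · exact Or.inr ⟨s, rfl⟩
  exact ((Set.finite_range _).union (Set.finite_range _)).subset this

theorem Y_finite : Y.Finite := by
  have : Y ⊆ (Set.range fun i : Fin 2 => ((FreeGroup.of i, 1) : GG)) ∪
      (Set.range fun s : K => ((1, s) : GG)) := by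
    rintro g (⟨i, rfl⟩ | ⟨s, _, rfl⟩)
    · exact Or.inl ⟨i, rfl⟩
    · exact Or.inr ⟨s, rfl⟩
  exact ((Set.finite_range _).union (Set.finite_range _)).subset this

theorem closure_XK : Subgroup.closure ({Multiplicative.ofAdd 1} : Set K) = ⊤ := by
  rw [← Subgroup.zpowers_eq_closure, Subgroup.eq_top_iff']
  intro k
  rw [Subgroup.mem_zpowers_iff]
  have : ∀ k : K, ∃ j : Fin 4, (Multiplicative.ofAdd (1 : ZMod 4) : K) ^ (j : ℕ) = k := by decide
  obtain ⟨j, hj⟩ := this k
  exact ⟨(j : ℕ), by rw [zpow_natCast, hj]⟩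

theorem X_closure : Subgroup.closure X = ⊤ := closure_gens closure_XK

theorem Y_closure : Subgroup.closure Y = ⊤ := closure_gens Subgroup.closure_univ

theorem ball_X (n : ℕ) : ball X n = {g : GG | FreeGroup.norm g.1 + kX g.2 ≤ n} := by
  apply ball_gens
  · decide
  · intro s hs k
    have : ∀ s : K, s = Multiplicative.ofAdd 1 ∨ s⁻¹ = Multiplicative.ofAdd 1 → ∀ k,
      kX (s * k) ≤ kX k + 1 := by decide
    exact this s hs k
  · intro k
    have h : ∀ k : K, k = 1 ∨ k = Multiplicative.ofAdd 2 ∨ (kX k = 1 ∧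
      (k = Multiplicative.ofAdd 1 ∨ k⁻¹ = Multiplicative.ofAdd 1)) := by decide
    rcases h k with rfl | rfl | ⟨h1, h2⟩
    · exact ⟨[], by decide, by simp, rfl⟩
    · exact ⟨[Multiplicative.ofAdd 1, Multiplicative.ofAdd 1], by decide, by simp, by decide⟩
    · exact ⟨[k], by simp [h1], by simpa using h2, by simp⟩

theorem ball_Y (n : ℕ) : ball Y n = {g : GG | FreeGroup.norm g.1 + kY g.2 ≤ n} := by
  apply ball_gens
  · decide
  · intro s _ k
    have : ∀ s k : K, kY (s * k) ≤ kY k + 1 := by decide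
    exact this s k
  · intro k
    by_cases h : k = 1
    · subst h
      exact ⟨[], by decide, by simp, rfl⟩
    · exact ⟨[k], by simp [kY, h], by simp, by simp⟩

theorem sum_K (f : K → ℕ) : ∑ k : K, f k = f 1 + f (Multiplicative.ofAdd 1) +
    f (Multiplicative.ofAdd 2) + f (Multiplicative.ofAdd 3) := by
  have : (Finset.univ : Finset K) = {1, Multiplicative.ofAdd 1, Multiplicative.ofAdd 2,
    Multiplicative.ofAdd 3} := by decide
  rw [this, Finset.sum_insert (by decide), Finset.sum_insert (by decide),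
    Finset.sum_insert (by decide), Finset.sum_singleton]
  ring

theorem card_X (n : ℕ) : (ball X (n + 2)).ncard =
    (Bf (n + 2)).card + 2 * (Bf (n + 1)).card + (Bf n).card := by
  have h : ∀ k, kX k ≤ n + 2 := by
    have : ∀ k, kX k ≤ 2 := by decide
    intro k; have := this k; omega
  rw [X, card_ball (κ := kX) (n + 2) h (ball_X (n + 2)), sum_K]
  have e0 : kX 1 = 0 := by decide
  have e1 : kX (Multiplicative.ofAdd 1) = 1 := by decide
  have e2 : kX (Multiplicative.ofAdd 2) = 2 := by decide
  have e3 : kX (Multiplicative.ofAdd 3) = 1 := by decide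
  rw [e0, e1, e2, e3]
  have f1 : n + 2 - 0 = n + 2 := by omega
  have f2 : n + 2 - 1 = n + 1 := by omega
  have f3 : n + 2 - 2 = n := by omega
  rw [f1, f2, f3]
  ring

theorem card_Y (n : ℕ) : (ball Y (n + 2)).ncard =
    (Bf (n + 2)).card + 3 * (Bf (n + 1)).card := by
  have h : ∀ k, kY k ≤ n + 2 := by
    have : ∀ k, kY k ≤ 2 := by decide
    intro k; have := this k; omega
  rw [Y, card_ball (κ := kY) (n + 2) h (ball_Y (n + 2)), sum_K]
  have e0 : kY 1 = 0 := by decide
  have e1 : kY (Multiplicative.ofAdd 1) = 1 := by decide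
  have e2 : kY (Multiplicative.ofAdd 2) = 1 := by decide
  have e3 : kY (Multiplicative.ofAdd 3) = 1 := by decide
  rw [e0, e1, e2, e3]
  have f1 : n + 2 - 0 = n + 2 := by omega
  have f2 : n + 2 - 1 = n + 1 := by omega
  rw [f1, f2]
  ring

/-- `9 |B_X(n)| ≤ 8 |B_Y(n)|` for `n ≥ 2` -/
theorem compare (n : ℕ) : 9 * (ball X (n + 2)).ncard ≤ 8 * (ball Y (n + 2)).ncard := by
  rw [card_X, card_Y]
  have h0 := card_Bf n
  have h1 := card_Bf (n + 1)
  have h2 := card_Bf (n + 2)
  have e1 : 3 ^ (n + 1) = 3 * 3 ^ n := by ring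
  have e2 : 3 ^ (n + 2) = 9 * 3 ^ n := by ring
  rw [e1] at h1
  rw [e2] at h2
  omega

theorem card_X_le (n : ℕ) : (ball X (n + 2)).ncard ≤ 32 * 3 ^ n := by
  rw [card_X]
  have h0 := card_Bf n
  have h1 := card_Bf (n + 1)
  have h2 := card_Bf (n + 2)
  have e1 : 3 ^ (n + 1) = 3 * 3 ^ n := by ring
  have e2 : 3 ^ (n + 2) = 9 * 3 ^ n := by ring
  rw [e1] at h1
  rw [e2] at h2
  omega

/-- the prefix making the first two letters come from different generators -/
def pre (w : List Lt) : Lt × Lt :=
  if w.head? = some (1, false) then ((1, true), (0, true)) else ((0, true), (1, true))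

theorem pre_ne (w : List Lt) : (pre w).1.1 ≠ (pre w).2.1 := by
  unfold pre
  split_ifs <;> simp

theorem pre_red {w : List Lt} (h : IsReduced w) : IsReduced ((pre w).1 :: (pre w).2 :: w) := by
  rw [isReduced_cons_cons]
  refine ⟨fun e => absurd e (pre_ne w), ?_⟩
  match w, h with
  | [], _ => exact IsReduced.singleton
  | c :: w', h =>
    rw [isReduced_cons_cons]
    refine ⟨?_, h⟩
    unfold pre
    obtain ⟨i, b⟩ := c
    split_ifs with hc
    · simp only [List.head?_cons, Option.some.injEq, Prod.mk.injEq] at hc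
      simp [hc.1]
    · simp only [List.head?_cons, Option.some.injEq, Prod.mk.injEq, not_and,
        Bool.not_eq_false] at hc
      intro h
      exact (hc h.symm).symm

open Classical in
/-- elements pairwise almost never twisted conjugate -/
noncomputable def An (n : ℕ) : Finset F :=
  (Wf n).image fun w => (FreeGroup.mk ((pre w).1 :: (pre w).2 :: w))⁻¹

theorem card_An (n : ℕ) : (An n).card = (Wf n).card := by
  classical
  rw [An, Finset.card_image_of_injOn]
  intro w hw w' hw' e
  have h1 := pre_red ((mem_Wf _ _).mp hw).2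
  have h2 := pre_red ((mem_Wf _ _).mp hw').2
  have h3 := mk_inj_of_isReduced h1 h2 (inv_injective e)
  simp only [List.cons.injEq] at h3
  exact h3.2.2

theorem norm_An {n : ℕ} {x : F} (hx : x ∈ An n) : FreeGroup.norm x = n + 2 := by
  classical
  rw [An, Finset.mem_image] at hx
  obtain ⟨w, hw, rfl⟩ := hx
  rw [mem_Wf] at hw
  rw [norm_inv_eq, norm_mk_of_isReduced (pre_red hw.2)]
  simp [hw.1]

/-- the map to the classes -/
def cl (x : F) : Set GG := twistedClass phi (x, 1)

theorem classes_X (n : ℕ) : classesMeeting phi X n = cl '' {x : F | FreeGroup.norm x ≤ n} :=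
  classes_eq (κ := kX) (by decide) n (ball_X n)

theorem classes_Y (n : ℕ) : classesMeeting phi Y n = cl '' {x : F | FreeGroup.norm x ≤ n} :=
  classes_eq (κ := kY) (by decide) n (ball_Y n)

theorem cl_le (n : ℕ) : (classesMeeting phi X (n + 2)).ncard ≤ (ball X (n + 2)).ncard := by
  rw [classes_X, card_X]
  have h1 : {x : F | FreeGroup.norm x ≤ n + 2} = (Bf (n + 2) : Set F) := by
    ext x; simp [mem_Bf]
  rw [h1]
  have h2 := Set.ncard_image_le (f := cl) (Finset.finite_toSet (Bf (n + 2)))
  rw [Set.ncard_coe_finset] at h2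
  omega

theorem cl_ge (n : ℕ) : 4 * 3 ^ n ≤ 17 * (classesMeeting phi X (n + 3)).ncard := by
  classical
  have h17 : (Bf 2).card = 17 := by have := card_Bf 2; omega
  have hfib : ∀ C ∈ (An (n + 1)).image cl, ((An (n + 1)).filter fun a => cl a = C).card ≤ 17 := by
    intro C hC
    rw [Finset.mem_image] at hC
    obtain ⟨x, hx, rfl⟩ := hC
    rw [← h17]
    refine (Finset.card_le_card (t := (Bf 2).image fun z => z * x * (phiF z)⁻¹) ?_).trans
      Finset.card_image_le
    intro a ha
    rw [Finset.mem_filter] at ha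
    have h1 : ((a, 1) : GG) ∈ cl x := by
      rw [← ha.2]
      exact ⟨1, by simp⟩
    obtain ⟨⟨z, l⟩, hz⟩ := h1
    have h2 : a = z * x * (phiF z)⁻¹ := by
      have := congrArg Prod.fst hz
      simpa [phi_apply] using this
    rw [Finset.mem_image]
    refine ⟨z, ?_, h2.symm⟩
    rw [mem_Bf]
    have h3 := norm_An ha.1
    rw [An, Finset.mem_image] at hx
    obtain ⟨w, hw, rfl⟩ := hx
    rw [mem_Wf] at hw
    have h4 := norm_twist z (pre_red hw.2) (pre_ne w)
    rw [← h2, h3, hw.1] at h4
    omega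
  have h1 := Finset.card_le_mul_card_image (An (n + 1)) 17 hfib
  rw [card_An, card_Wf] at h1
  refine h1.trans (Nat.mul_le_mul_left _ ?_)
  rw [classes_X, ← Set.ncard_coe_finset, Finset.coe_image]
  apply Set.ncard_le_ncard
  · apply Set.image_mono
    intro x hx
    have := norm_An (Finset.mem_coe.mp hx)
    simp only [Set.mem_ofPred_eq]
    omega
  · apply Set.Finite.image
    have h1 : {x : F | FreeGroup.norm x ≤ n + 3} = (Bf (n + 3) : Set F) := by
      ext x; simp [mem_Bf]
    rw [h1]
    exact Finset.finite_toSet _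

theorem main : tcr phi Y < tcr phi X := by
  set u : ℕ → ℝ := fun n => ((classesMeeting phi X n).ncard : ℝ) / ((ball X n).ncard : ℝ) with hu
  set v : ℕ → ℝ := fun n => ((classesMeeting phi Y n).ncard : ℝ) / ((ball Y n).ncard : ℝ) with hv
  have hposX : ∀ n, 0 < (ball X (n + 2)).ncard := by
    intro n
    rw [card_X]
    have := card_Bf (n + 2)
    have h3 : 1 ≤ 3 ^ (n + 2) := Nat.one_le_pow _ _ (by norm_num)
    omega
  have hu1 : ∀ᶠ n in atTop, u n ≤ 1 := by
    filter_upwards [eventually_ge_atTop 2] with n hn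
    obtain ⟨m, rfl⟩ := Nat.exists_eq_add_of_le' hn
    have := hposX m
    simp only [hu]
    rw [div_le_one (by exact_mod_cast this)]
    exact_mod_cast cl_le m
  have hbu : IsBoundedUnder (· ≤ ·) atTop u := ⟨1, by simpa using hu1⟩
  have hlow : ∀ᶠ n in atTop, (1 : ℝ) / 408 ≤ u n := by
    filter_upwards [eventually_ge_atTop 3] with n hn
    obtain ⟨m, rfl⟩ := Nat.exists_eq_add_of_le' hn
    have h1 := hposX (m + 1)
    have h2 := card_X_le (m + 1)
    have h3 := cl_ge m
    simp only [hu]
    have h1' : (0 : ℝ) < ((ball X (m + 3)).ncard : ℝ) := by exact_mod_cast h1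
    rw [div_le_div_iff₀ (by norm_num) h1']
    have h2' : ((ball X (m + 3)).ncard : ℝ) ≤ 32 * 3 ^ (m + 1) := by exact_mod_cast h2
    have h3' : (4 : ℝ) * 3 ^ m ≤ 17 * ((classesMeeting phi X (m + 3)).ncard : ℝ) := by
      exact_mod_cast h3
    have : (3 : ℝ) ^ (m + 1) = 3 * 3 ^ m := by ring
    rw [this] at h2'
    linarith
  have hle : ∀ᶠ n in atTop, v n ≤ 8 / 9 * u n := by
    filter_upwards [eventually_ge_atTop 2] with n hn
    obtain ⟨m, rfl⟩ := Nat.exists_eq_add_of_le' hn
    have h1 := hposX m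
    have h2 := compare m
    simp only [hu, hv]
    rw [classes_X, classes_Y]
    have h1' : (0 : ℝ) < ((ball X (m + 2)).ncard : ℝ) := by exact_mod_cast h1
    have h2' : 9 * ((ball X (m + 2)).ncard : ℝ) ≤ 8 * ((ball Y (m + 2)).ncard : ℝ) := by
      exact_mod_cast h2
    have h3' : (0 : ℝ) < ((ball Y (m + 2)).ncard : ℝ) := by linarith
    rw [div_mul_div_comm, div_le_div_iff₀ h3' (by positivity)]
    have h4 : (0 : ℝ) ≤ ((cl '' {x : F | FreeGroup.norm x ≤ m + 2}).ncard : ℝ) := by positivity
    nlinarith [mul_le_mul_of_nonneg_left h2' h4]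
  have hL : (1 : ℝ) / 408 ≤ limsup u atTop :=
    le_limsup_of_frequently_le hlow.frequently hbu
  have hLpos : 0 < limsup u atTop := lt_of_lt_of_le (by norm_num) hL
  have hev : ∀ᶠ n in atTop, u n < 17 / 16 * limsup u atTop :=
    eventually_lt_of_limsup_lt (by linarith) hbu
  have hcob : IsCoboundedUnder (· ≤ ·) atTop v := by
    apply IsBoundedUnder.isCoboundedUnder_le
    exact ⟨0, by
      simp only [eventually_map]
      exact Eventually.of_forall fun n => by simp only [hv]; positivity⟩
  have hfin : limsup v atTop ≤ 17 / 18 * limsup u atTop := by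
    apply limsup_le_of_le hcob
    filter_upwards [hle, hev] with n h1 h2
    linarith
  have : limsup v atTop < limsup u atTop := by linarith
  exact this

end Q29.TC
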