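import Pool.Agent.Q29.TC.Free

/-!
# Balls and twisted conjugacy classes of `F₂ × ℤ/4`
-/

namespace Q29.TC

open FreeGroup

/-- the cyclic group of order four -/
abbrev K : Type := Multiplicative (ZMod 4)

/-- the group `F₂ × ℤ/4` -/
abbrev GG : Type := F × K

/-- the endomorphism `(x, k) ↦ (φ x, 1)` -/
def phi : GG →* GG where
  toFun g := (phiF g.1, 1)
  map_one' := by ext1 <;> simp
  map_mul' g h := by
    apply Prod.ext
    · simp
    · simp

theorem phi_apply (x : F) (k : K) : phi (x, k) = (phiF x, 1) := rfl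

/-- the generating set defined by the generators of `F₂` and a subset of `ℤ/4` -/
def gens (XK : Set K) : Set GG := {g | (∃ i, g = (FreeGroup.of i, 1)) ∨ ∃ s ∈ XK, g = (1, s)}

theorem norm_letter_mul (i : Fin 2) (b : Bool) (x : F) :
    norm (FreeGroup.mk [(i, b)] * x) ≤ norm x + 1 := by
  have h1 := norm_mul_le (FreeGroup.mk [(i, b)]) x
  have h2 : norm (FreeGroup.mk [(i, b)]) ≤ [(i, b)].length := norm_mk_le
  simp only [List.length_cons, List.length_nil] at h2
  omega

theorem of_inv (i : Fin 2) : (FreeGroup.of i : F)⁻¹ = FreeGroup.mk [(i, false)] := by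
  rw [FreeGroup.of, FreeGroup.inv_mk]
  rfl

theorem ball_gens {XK : Set K} {κ : K → ℕ} (h1 : κ 1 = 0)
    (h2 : ∀ s, s ∈ XK ∨ s⁻¹ ∈ XK → ∀ k, κ (s * k) ≤ κ k + 1)
    (h3 : ∀ k, ∃ l : List K, l.length = κ k ∧ (∀ s ∈ l, s ∈ XK ∨ s⁻¹ ∈ XK) ∧ l.prod = k) (n : ℕ) :
    ball (gens XK) n = {g : GG | FreeGroup.norm g.1 + κ g.2 ≤ n} := by
  ext g
  constructor
  · rintro ⟨l, hl, hs, rfl⟩
    have key : norm l.prod.1 + κ l.prod.2 ≤ l.length := by
      clear hl
      induction l with
      | nil => simp [h1]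
      | cons u l ih =>
        have ih' := ih fun x hx => hs x (by simp [hx])
        rw [List.prod_cons, List.length_cons]
        rcases hs u (by simp) with (⟨i, rfl⟩ | ⟨s, hs', rfl⟩) | (⟨i, hi⟩ | ⟨s, hs', hi⟩)
        · have := norm_letter_mul i true l.prod.1
          simp only [Prod.fst_mul, Prod.snd_mul, one_mul]
          change norm (FreeGroup.mk [(i, true)] * l.prod.1) + κ l.prod.2 ≤ _
          omega
        · have := h2 s (Or.inl hs') l.prod.2
          simp only [Prod.fst_mul, Prod.snd_mul, one_mul]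
          omega
        · have hu : u = (FreeGroup.mk [(i, false)], 1) := by
            rw [← inv_inv u, hi, Prod.inv_mk, of_inv, inv_one]
          subst hu
          have := norm_letter_mul i false l.prod.1
          simp only [Prod.fst_mul, Prod.snd_mul, one_mul]
          omega
        · have hu : u = (1, s⁻¹) := by
            rw [← inv_inv u, hi, Prod.inv_mk, inv_one]
          subst hu
          have := h2 s⁻¹ (Or.inr (by simpa using hs')) l.prod.2
          simp only [Prod.fst_mul, Prod.snd_mul, one_mul]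
          omega
    exact key.trans hl
  · intro hg
    obtain ⟨x, k⟩ := g
    simp only [Set.mem_ofPred_eq] at hg
    obtain ⟨l, hl, hs, hp⟩ := h3 k
    refine ⟨x.toWord.map (fun a => ((FreeGroup.mk [a] : F), (1 : K))) ++
      l.map (fun s => ((1 : F), s)), ?_, ?_, ?_⟩
    · rw [List.length_append, List.length_map, List.length_map, hl]
      exact hg
    · intro u hu
      rw [List.mem_append, List.mem_map, List.mem_map] at hu
      rcases hu with ⟨⟨i, b⟩, _, rfl⟩ | ⟨s, hs', rfl⟩
      · cases b
        · right; left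
          exact ⟨i, by rw [Prod.inv_mk, inv_one, ← of_inv, inv_inv]⟩
        · left; left
          exact ⟨i, rfl⟩
      · rcases hs s hs' with h | h
        · left; right; exact ⟨s, h, rfl⟩
        · right; right; exact ⟨s⁻¹, h, by rw [Prod.inv_mk, inv_one]⟩
    · rw [List.prod_append]
      have e1 : ∀ L : List Lt, (L.map (fun a => ((FreeGroup.mk [a] : F), (1 : K)))).prod =
          (FreeGroup.mk L, 1) := by
        intro L
        induction L with
        | nil => rfl
        | cons a L ih =>
          rw [List.map_cons, List.prod_cons, ih, Prod.mk_mul_mk, FreeGroup.mul_mk, one_mul]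
          rfl
      have e2 : ∀ L : List K, (L.map (fun s => ((1 : F), s))).prod = (1, L.prod) := by
        intro L
        induction L with
        | nil => rfl
        | cons a L ih => rw [List.map_cons, List.prod_cons, ih, Prod.mk_mul_mk, one_mul,
            List.prod_cons]
      rw [e1, e2, mk_toWord, hp, Prod.mk_mul_mk, mul_one, one_mul]

theorem closure_gens {XK : Set K} (h : Subgroup.closure XK = ⊤) :
    Subgroup.closure (gens XK) = ⊤ := by
  rw [eq_top_iff]
  rintro ⟨x, k⟩ _
  have h1 : ((x, 1) : GG) ∈ Subgroup.closure (gens XK) := by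
    have : Subgroup.closure (Set.range (FreeGroup.of : Fin 2 → F)) ≤
        (Subgroup.closure (gens XK)).comap (MonoidHom.inl F K) := by
      rw [Subgroup.closure_le]
      rintro _ ⟨i, rfl⟩
      exact Subgroup.subset_closure (Or.inl ⟨i, rfl⟩)
    rw [FreeGroup.closure_range_of] at this
    exact this (Subgroup.mem_top x)
  have h2 : ((1, k) : GG) ∈ Subgroup.closure (gens XK) := by
    have : Subgroup.closure XK ≤
        (Subgroup.closure (gens XK)).comap (MonoidHom.inr F K) := by
      rw [Subgroup.closure_le]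
      intro s hs
      exact Subgroup.subset_closure (Or.inr ⟨s, hs, rfl⟩)
    rw [h] at this
    exact this (Subgroup.mem_top k)
  have := mul_mem h1 h2
  simpa using this

theorem class_eq (x : F) (k : K) : twistedClass phi (x, k) = twistedClass phi (x, 1) := by
  ext ⟨y, m⟩
  constructor
  · rintro ⟨⟨z, l⟩, h⟩
    refine ⟨(z, l * k), ?_⟩
    rw [h]
    simp [phi_apply]
  · rintro ⟨⟨z, l⟩, h⟩
    refine ⟨(z, l * k⁻¹), ?_⟩
    rw [h]
    simp [phi_apply]

/-- The classes which meet the ball, for a ball of the form `norm x + κ k ≤ n`. -/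
theorem classes_eq {XK : Set K} {κ : K → ℕ} (h1 : κ 1 = 0) (n : ℕ)
    (hb : ball (gens XK) n = {g : GG | FreeGroup.norm g.1 + κ g.2 ≤ n}) :
    classesMeeting phi (gens XK) n = (fun x : F => twistedClass phi (x, 1)) '' {x : F | FreeGroup.norm x ≤ n} := by
  ext C
  constructor
  · rintro ⟨⟨y, rfl⟩, ⟨⟨x, k⟩, hx, hxb⟩⟩
    rw [hb] at hxb
    simp only [Set.mem_ofPred_eq] at hxb
    refine ⟨x, by simp only [Set.mem_ofPred_eq]; omega, ?_⟩
    change twistedClass phi (x, 1) = _
    rw [← class_eq x k]
    obtain ⟨z, hz⟩ := hx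
    rw [hz]
    ext w
    constructor
    · rintro ⟨u, hu⟩
      exact ⟨u * z, by rw [hu, _root_.map_mul, mul_inv_rev]; group⟩
    · rintro ⟨u, hu⟩
      exact ⟨u * z⁻¹, by rw [hu, _root_.map_mul, _root_.map_inv, mul_inv_rev]; group⟩
  · rintro ⟨x, hx, rfl⟩
    simp only [Set.mem_ofPred_eq] at hx
    refine ⟨⟨(x, 1), rfl⟩, (x, 1), ⟨1, by simp⟩, ?_⟩
    rw [hb]
    simp only [Set.mem_ofPred_eq, h1]
    omega

/-- counting the ball -/
theorem card_ball {XK : Set K} {κ : K → ℕ} (n : ℕ) (hκ : ∀ k, κ k ≤ n)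
    (hb : ball (gens XK) n = {g : GG | FreeGroup.norm g.1 + κ g.2 ≤ n}) :
    (ball (gens XK) n).ncard = ∑ k : K, (Bf (n - κ k)).card := by
  classical
  rw [hb]
  have h1 : ({g : GG | FreeGroup.norm g.1 + κ g.2 ≤ n}) =
      (((Finset.univ : Finset K).sigma fun k => Bf (n - κ k)).image
        (fun p => ((p.2, p.1) : GG)) : Finset GG) := by
    ext ⟨x, k⟩
    simp only [Set.mem_ofPred_eq, Finset.coe_image, Set.mem_image, Finset.mem_coe,
      Finset.mem_sigma, Finset.mem_univ, true_and]
    constructor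
    · intro h
      exact ⟨⟨k, x⟩, (mem_Bf _ _).mpr (by simp only; omega), rfl⟩
    · rintro ⟨⟨k', x'⟩, h, e⟩
      rw [mem_Bf] at h
      simp only [Prod.mk.injEq] at e
      obtain ⟨rfl, rfl⟩ := e
      have := hκ k'
      simp only at h
      omega
  rw [h1, Set.ncard_coe_finset, Finset.card_image_of_injOn, Finset.card_sigma]
  rintro ⟨k, x⟩ _ ⟨k', x'⟩ _ e
  simp only [Prod.mk.injEq] at e
  obtain ⟨rfl, rfl⟩ := e
  rfl

end Q29.TC
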